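import Pool.Agent.Work.MP_c93117_an.Bd.B05

/-!
# MP_c93117_an, block Nm: Theorem N, unconditional
-/

namespace SmP

theorem split_all : Split :=
  prf_Split prf_PeakReg prf_BadPt (prf_SepPts (prf_Mean prf_Coh)) (prf_PickReg prf_ProdReg)
    (prf_Bump prf_Coh) (prf_RelOf prf_Coh)

theorem noDrift_all : NoDrift := prf_NoDrift (prf_Dich prf_ProdReg) prf_FChain

theorem tree_all : Tree := prf_Tree split_all noDrift_all (prf_Transfer prf_Coh)

/-- Theorem N. -/
theorem thmN : ThmN := prf_ThmN (prf_SysEx prf_AbsEx) tree_all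

/-- The block statement. -/
theorem stN : C93117.StN := StN_of thmN prf_SepNC

end SmP
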