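import Pool.Agent.Work.MP_c93117_an.Nm.Defs

/-!
# MP_c93117_an, block Nm: statements

All hypotheses are explicit; the items are independent of each other.
-/

namespace SmP

/-- The absolute value of a continuous linear functional on `C(K)`. -/
def AbsEx : Prop :=
  ∀ (K : Type) [TopologicalSpace K] [CompactSpace K] (φ : C(K, ℝ) →L[ℝ] ℝ),
    ∃ M : C(K, ℝ) →ₗ[ℝ] ℝ, (∀ f g : C(K, ℝ), |g| ≤ f → φ g ≤ M f) ∧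
      ∀ f : C(K, ℝ), 0 ≤ f → ∀ η : ℝ, 0 < η → ∃ g : C(K, ℝ), |g| ≤ f ∧ M f - η < φ g

/-- Projections of small norm give a system. -/
def SysEx : Prop :=
  ∀ (K : Type) [TopologicalSpace K] [CompactSpace K] (P : C(K, ℝ) →L[ℝ] C(K, ℝ)) (ε : ℝ),
    (∀ f, P (P f) = P f) → ‖P‖ ≤ 1 + ε → 0 ≤ ε → ε ≤ 1 / 10 ^ 12 →
    ∃ M : K → C(K, ℝ) →ₗ[ℝ] ℝ, Sys P M ε

/-- Pointwise inequality for the no drift lemma. -/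
def FChain : Prop :=
  ∀ p q r s : ℝ,
    F (1 / 4) (17 / 20) p s ≤
      F (1 / 5) (9 / 10) p q + F (1 / 5) (9 / 10) r s + F (4 / 5) (3 / 10) q r

/-- Coherence of the signs. -/
def Coh : Prop :=
  ∀ (K : Type) [TopologicalSpace K] [CompactSpace K] (P : C(K, ℝ) →L[ℝ] C(K, ℝ))
    (M : K → C(K, ℝ) →ₗ[ℝ] ℝ) (ε : ℝ), Sys P M ε → ∀ (x : C(K, ℝ)) (s : K) (σ : ℝ), P x = x →
    (σ = 1 ∨ σ = -1) → σ * x s = |x s| → ∀ f : C(K, ℝ),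
    |M s (f * |x|) - σ * P (f * x) s| ≤ ‖f‖ * (M s |x| - |x s|)

/-- Products at regular points. -/
def ProdReg : Prop :=
  ∀ (K : Type) [TopologicalSpace K] [CompactSpace K] (P : C(K, ℝ) →L[ℝ] C(K, ℝ))
    (M : K → C(K, ℝ) →ₗ[ℝ] ℝ) (ε : ℝ), Sys P M ε → ∀ (x u : C(K, ℝ)) (s : K) (b : ℝ),
    UB P x → UB P u → Reg M b x s → Reg M b u s → Reg M b ((1 / 2 : ℝ) • (x + u)) s →
    M s (dev (u * x) (u s * x s)) ≤ 6 * b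

/-- Mean values. -/
def Mean : Prop :=
  ∀ (K : Type) [TopologicalSpace K] [CompactSpace K] (P : C(K, ℝ) →L[ℝ] C(K, ℝ))
    (M : K → C(K, ℝ) →ₗ[ℝ] ℝ) (ε : ℝ), Sys P M ε → ∀ (x u : C(K, ℝ)) (s : K) (σ θ : ℝ),
    UB P x → UB P u → (σ = 1 ∨ σ = -1) → σ * x s = |x s| → 0 ≤ θ → 1 - θ ≤ |x s| →
    |M s (u * x) - σ * u s| ≤ 4 * (ε + θ)

/-- Transfer of peaks along the relation. -/
def Transfer : Prop :=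
  ∀ (K : Type) [TopologicalSpace K] [CompactSpace K] (P : C(K, ℝ) →L[ℝ] C(K, ℝ))
    (M : K → C(K, ℝ) →ₗ[ℝ] ℝ) (ε : ℝ), Sys P M ε → ∀ (y x : C(K, ℝ)) (t : K),
    UB P y → UB P x → 1 - 1 / 1000 ≤ |y t| → M t (Fc (1 / 4) (17 / 20) y x) ≤ 1 / 1000 →
    3 / 4 ≤ |x t|

/-- The dichotomy. -/
def Dich : Prop :=
  ∀ (K : Type) [TopologicalSpace K] [CompactSpace K] (P : C(K, ℝ) →L[ℝ] C(K, ℝ))
    (M : K → C(K, ℝ) →ₗ[ℝ] ℝ) (ε : ℝ), Sys P M ε → ∀ (y x : C(K, ℝ)), UB P y → UB P x →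
    (∀ s, M s (Fc (1 / 4) (17 / 20) y x) ≤ 1 / 2) →
    ∀ t, M t (Fc (4 / 5) (3 / 10) y x) ≤ 2 * 10 ^ 7 * ε

/-- No drift along chains. -/
def NoDrift : Prop :=
  ∀ (K : Type) [TopologicalSpace K] [CompactSpace K] (P : C(K, ℝ) →L[ℝ] C(K, ℝ))
    (M : K → C(K, ℝ) →ₗ[ℝ] ℝ) (ε : ℝ), Sys P M ε → ∀ (x : ℕ → C(K, ℝ)) (N : ℕ),
    (∀ n ≤ N, UB P (x n)) → (∀ n < N, Rel M ε (x (n + 1)) (x n)) →
    ∀ j k, j < k → k ≤ N → ∀ t, M t (Fc (1 / 4) (17 / 20) (x k) (x j)) ≤ 4 * 10 ^ 7 * ε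

/-- Regular points near peaks. -/
def PeakReg : Prop :=
  ∀ (K : Type) [TopologicalSpace K] [CompactSpace K] (P : C(K, ℝ) →L[ℝ] C(K, ℝ))
    (M : K → C(K, ℝ) →ₗ[ℝ] ℝ) (ε : ℝ), Sys P M ε → ∀ (x : C(K, ℝ)) (t₀ : K) (θ b : ℝ),
    UB P x → |x t₀| = 1 → 0 < θ → 0 < b → 2 * ε ≤ θ → 10 * ε < b ^ 2 →
    ∃ t, Reg M b x t ∧ 1 - θ < |x t|

/-- A regular point which is not good. -/
def BadPt : Prop :=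
  ∀ (K : Type) [TopologicalSpace K] [CompactSpace K] (P : C(K, ℝ) →L[ℝ] C(K, ℝ))
    (M : K → C(K, ℝ) →ₗ[ℝ] ℝ) (ε : ℝ), Sys P M ε → ∀ (x : C(K, ℝ)) (t : K) (c θ b : ℝ),
    0 < c → 0 < θ → 2 * b ≤ c * θ → Reg M b x t → ¬ Good P c t →
    ∃ s, ¬ Near P c s t ∧ |(|x s| - |x t|)| < θ

/-- A function which separates the two points. -/
def SepPts : Prop :=
  ∀ (K : Type) [TopologicalSpace K] [CompactSpace K] (P : C(K, ℝ) →L[ℝ] C(K, ℝ))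
    (M : K → C(K, ℝ) →ₗ[ℝ] ℝ) (ε : ℝ), Sys P M ε → ∀ (x : C(K, ℝ)) (s t : K) (c θ : ℝ),
    UB P x → 0 < c → c ≤ 1 → ε ≤ c / 1000 → 0 ≤ θ → θ ≤ c / 1000 →
    1 - θ ≤ |x s| → 1 - θ ≤ |x t| → ¬ Near P c s t →
    ∃ (u : C(K, ℝ)) (s' t' : K), UB P u ∧ 1 - θ ≤ |x s'| ∧ 1 - θ ≤ |x t'| ∧
      M t' (u * x) + c / 2 ≤ M s' (u * x)

/-- A good regular point for a product. -/
def PickReg : Prop :=
  ∀ (K : Type) [TopologicalSpace K] [CompactSpace K] (P : C(K, ℝ) →L[ℝ] C(K, ℝ))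
    (M : K → C(K, ℝ) →ₗ[ℝ] ℝ) (ε : ℝ), Sys P M ε → ∀ (x u : C(K, ℝ)) (s : K) (c θ b : ℝ),
    UB P x → UB P u → 0 < c → c ≤ 1 → 0 ≤ θ → θ ≤ c / 4000 → ε ≤ c / 10 ^ 12 → 0 < b →
    750 * ε < b ^ 2 * c → 1 - θ ≤ |x s| →
    ∃ s₁, Reg M b x s₁ ∧ M s₁ (dev (u * x) (u s₁ * x s₁)) ≤ 6 * b ∧ 63 / 64 < |x s₁| ∧
      M s (u * x) - c / 8 < u s₁ * x s₁

/-- The tent function around the value `r` of `v`, cut off to `|x| ≥ 15/16`. -/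
noncomputable def tent {K : Type} [TopologicalSpace K] (c : ℝ) (x v : C(K, ℝ)) (r : ℝ) :
    C(K, ℝ) :=
  ⟨fun s => cl (32 * (|x s| - 15 / 16)) * cl (1 - 8 / c * |v s - r|), by unfold cl; fun_prop⟩

/-- The tent function has a large image. -/
def Bump : Prop :=
  ∀ (K : Type) [TopologicalSpace K] [CompactSpace K] (P : C(K, ℝ) →L[ℝ] C(K, ℝ))
    (M : K → C(K, ℝ) →ₗ[ℝ] ℝ) (ε : ℝ), Sys P M ε → ∀ (x v : C(K, ℝ)) (s₁ : K) (c b : ℝ),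
    UB P x → 0 < c → c ≤ 1 → 0 < b → b ≤ c / 10 ^ 4 → Reg M b x s₁ →
    M s₁ (dev v (v s₁)) ≤ 6 * b → 63 / 64 < |x s₁| →
    19 / 20 ≤ |P (tent c x v (v s₁) * x) s₁|

/-- Images of functions supported near the peaks of `x` are below `x`. -/
def RelOf : Prop :=
  ∀ (K : Type) [TopologicalSpace K] [CompactSpace K] (P : C(K, ℝ) →L[ℝ] C(K, ℝ))
    (M : K → C(K, ℝ) →ₗ[ℝ] ℝ) (ε : ℝ), Sys P M ε → ∀ (x f : C(K, ℝ)) (r : ℝ),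
    UB P x → (∀ s, 0 ≤ f s) → (∀ s, f s ≤ 1) → (∀ s, |x s| ≤ 15 / 16 → f s = 0) →
    0 < r → r ≤ 20 / 19 → Rel M ε (r • P (f * x)) x

/-- The splitting of `x`. -/
def Split : Prop :=
  ∀ (K : Type) [TopologicalSpace K] [CompactSpace K] (P : C(K, ℝ) →L[ℝ] C(K, ℝ))
    (M : K → C(K, ℝ) →ₗ[ℝ] ℝ) (ε : ℝ), Sys P M ε → ∀ (x : C(K, ℝ)) (c : ℝ),
    P x = x → ‖x‖ = 1 → 0 < c → c ≤ 1 → ε ≤ c ^ 4 / 10 ^ 12 →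
    (∃ t, Good P c t ∧ 1 - c / 10 ^ 4 ≤ |x t|) ∨
    ∃ y₀ y₁ : C(K, ℝ), P y₀ = y₀ ∧ P y₁ = y₁ ∧ ‖y₀‖ = 1 ∧ ‖y₁‖ = 1 ∧ Rel M ε y₀ x ∧
      Rel M ε y₁ x ∧ ∀ s, |y₀ s| + |y₁ s| ≤ 28 / 25

/-- The tree. -/
def Tree : Prop :=
  ∀ (K : Type) [TopologicalSpace K] [CompactSpace K] (P : C(K, ℝ) →L[ℝ] C(K, ℝ))
    (M : K → C(K, ℝ) →ₗ[ℝ] ℝ) (ε : ℝ), Sys P M ε → NoCantor P → ∀ (x : C(K, ℝ)) (c : ℝ),
    P x = x → ‖x‖ = 1 → 0 < c → c ≤ 1 → ε ≤ c ^ 4 / 10 ^ 12 →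
    ∃ t, Good P c t ∧ 1 - c / 10 ^ 4 ≤ ‖ev P t‖ ∧ 3 / 4 ≤ |x t|

/-- A separable dual excludes Cantor sets. -/
def SepNC : Prop :=
  ∀ (K : Type) [TopologicalSpace K] [CompactSpace K] (P : C(K, ℝ) →L[ℝ] C(K, ℝ))
    (p : Submodule ℝ C(K, ℝ)), (∀ x, P x = x → x ∈ p) →
    TopologicalSpace.SeparableSpace (p →L[ℝ] ℝ) → NoCantor P

/-- Theorem N. -/
def ThmN : Prop :=
  ∀ (K : Type) [TopologicalSpace K] [CompactSpace K] (P : C(K, ℝ) →L[ℝ] C(K, ℝ)) (c : ℝ),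
    0 < c → c ≤ 1 → (∀ f, P (P f) = P f) → ‖P‖ ≤ 1 + c ^ 4 / 10 ^ 12 → NoCantor P →
    ∀ x, P x = x → ‖x‖ = 1 → ∃ t, Good P c t ∧ 1 - c / 10 ^ 4 ≤ ‖ev P t‖ ∧ 3 / 4 ≤ |x t|

end SmP
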