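import Mathlib

/-!
# MP_c93117_an, block Nm: norming good points of projections of small norm

`K` is a compact space, `P` a projection of `C(K)` of norm at most `1 + ε`. See `Nm/PROOF.md`.
-/

namespace SmP

section
variable {K : Type} [TopologicalSpace K] [CompactSpace K]

/-- The functional `f ↦ (P f) t`. -/
noncomputable def ev (P : C(K, ℝ) →L[ℝ] C(K, ℝ)) (t : K) : C(K, ℝ) →L[ℝ] ℝ :=
  (ContinuousMap.evalCLM ℝ t).comp P

/-- The functionals of `s` and `t` are equal up to sign and up to `c`. -/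
def Near (P : C(K, ℝ) →L[ℝ] C(K, ℝ)) (c : ℝ) (s t : K) : Prop :=
  ‖ev P s - ev P t‖ ≤ c ∨ ‖ev P s + ev P t‖ ≤ c

/-- The point `t` is good: the functional of `t` lives, up to `c`, on the points near to `t`. -/
def Good (P : C(K, ℝ) →L[ℝ] C(K, ℝ)) (c : ℝ) (t : K) : Prop :=
  ∀ f : C(K, ℝ), (∀ s, Near P c s t → f s = 0) → |P f t| ≤ c * ‖f‖

/-- Clamp to `[0, 1]`. -/
noncomputable def cl (z : ℝ) : ℝ := max 0 (min 1 z)

/-- A cut-off of the set `{|y| > a, x sgn y < b}`. -/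
noncomputable def F (a b y x : ℝ) : ℝ :=
  cl (20 * (y - a)) * cl (20 * (b - x)) + cl (20 * (-y - a)) * cl (20 * (b + x))

/-- The function `s ↦ F a b (y s) (x s)`. -/
noncomputable def Fc (a b : ℝ) (y x : C(K, ℝ)) : C(K, ℝ) :=
  ⟨fun s => F a b (y s) (x s), by unfold F cl; fun_prop⟩

/-- The function `s ↦ |x s - r|`. -/
noncomputable def dev (x : C(K, ℝ)) (r : ℝ) : C(K, ℝ) :=
  ⟨fun s => |x s - r|, by fun_prop⟩

/-- `s` is a `b`-regular point of `x`. -/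
def Reg (M : K → C(K, ℝ) →ₗ[ℝ] ℝ) (b : ℝ) (x : C(K, ℝ)) (s : K) : Prop :=
  M s (dev |x| |x s|) ≤ b

/-- `x` is in the unit ball of the range of `P`. -/
def UB (P : C(K, ℝ) →L[ℝ] C(K, ℝ)) (x : C(K, ℝ)) : Prop := P x = x ∧ ‖x‖ ≤ 1

/-- The setting: `M t` behaves like the absolute value of the functional `f ↦ (P f) t`, and all
points outside small sets are regular. -/
structure Sys (P : C(K, ℝ) →L[ℝ] C(K, ℝ)) (M : K → C(K, ℝ) →ₗ[ℝ] ℝ) (ε : ℝ) : Prop where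
  eps0 : 0 ≤ ε
  eps1 : ε ≤ 1 / 10 ^ 12
  idem : ∀ f, P (P f) = P f
  pos : ∀ t f, 0 ≤ f → 0 ≤ M t f
  one : ∀ t, M t 1 ≤ 1 + ε
  abs : ∀ t f, |P f t| ≤ M t |f|
  ex : ∀ (t : K) (l : List C(K, ℝ)) (f : C(K, ℝ)) (b : ℝ), 0 < b → (∀ x ∈ l, UB P x) → f ≤ 1 →
    5 * l.length * ε < b ^ 2 * M t f → ∃ s, 0 < f s ∧ ∀ x ∈ l, Reg M b x s

/-- The relation `y < x`: for all `t`, almost everywhere for `M t`, `|y| > 1/5` implies that
`x sgn y ≥ 9/10`. -/
def Rel (M : K → C(K, ℝ) →ₗ[ℝ] ℝ) (ε : ℝ) (y x : C(K, ℝ)) : Prop :=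
  ∀ t, M t (Fc (1 / 5) (9 / 10) y x) ≤ 10 ^ 7 * ε

/-- There is no Cantor set of points separated by the range of `P`. -/
def NoCantor (P : C(K, ℝ) →L[ℝ] C(K, ℝ)) : Prop :=
  ¬ ∃ t : (ℕ → Bool) → K, ∀ β β' : ℕ → Bool, β ≠ β' →
    ∃ z : C(K, ℝ), P z = z ∧ ‖z‖ = 1 ∧ 1 / 10 ≤ |(|z (t β)| - |z (t β')|)|

end

/-! ## Basic lemmas -/

section
variable {K : Type} [TopologicalSpace K] [CompactSpace K]

theorem ev_apply (P : C(K, ℝ) →L[ℝ] C(K, ℝ)) (t : K) (f : C(K, ℝ)) : ev P t f = P f t := rfl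

theorem Fc_apply (a b : ℝ) (y x : C(K, ℝ)) (s : K) : Fc a b y x s = F a b (y s) (x s) := rfl

theorem dev_apply (x : C(K, ℝ)) (r : ℝ) (s : K) : dev x r s = |x s - r| := rfl

theorem cl_nonneg (z : ℝ) : 0 ≤ cl z := le_max_left _ _

theorem cl_le_one (z : ℝ) : cl z ≤ 1 := max_le zero_le_one (min_le_left _ _)

theorem cl_of_nonpos {z : ℝ} (h : z ≤ 0) : cl z = 0 :=
  max_eq_left ((min_le_right _ _).trans h)

theorem cl_of_one_le {z : ℝ} (h : 1 ≤ z) : cl z = 1 := by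
  unfold cl
  rw [min_eq_left h]
  exact max_eq_right zero_le_one

theorem F_nonneg (a b y x : ℝ) : 0 ≤ F a b y x :=
  add_nonneg (mul_nonneg (cl_nonneg _) (cl_nonneg _)) (mul_nonneg (cl_nonneg _) (cl_nonneg _))

theorem F_neg (a b y x : ℝ) : F a b (-y) (-x) = F a b y x := by
  unfold F
  rw [neg_neg, sub_neg_eq_add, ← sub_eq_add_neg]
  ring

theorem F_le_one {a : ℝ} (ha : 0 ≤ a) (b y x : ℝ) : F a b y x ≤ 1 := by
  have h1 : ∀ u v : ℝ, cl u * cl v ≤ 1 := fun u v =>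
    mul_le_one₀ (cl_le_one _) (cl_nonneg _) (cl_le_one _)
  unfold F
  rcases le_total y 0 with h | h
  · rw [cl_of_nonpos (by linarith : 20 * (y - a) ≤ 0), zero_mul, zero_add]
    exact h1 _ _
  · rw [cl_of_nonpos (by linarith : 20 * (-y - a) ≤ 0), zero_mul, add_zero]
    exact h1 _ _

/-- Where `F` is positive. -/
theorem F_pos {a b y x : ℝ} (h : 0 < F a b y x) : (a < y ∧ x < b) ∨ (y < -a ∧ -b < x) := by
  by_contra hn
  rw [not_or, not_and_or, not_and_or, not_lt, not_lt, not_lt, not_lt] at hn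
  have h1 : cl (20 * (y - a)) * cl (20 * (b - x)) = 0 := by
    rcases hn.1 with h | h
    · rw [cl_of_nonpos (by linarith : 20 * (y - a) ≤ 0), zero_mul]
    · rw [cl_of_nonpos (by linarith : 20 * (b - x) ≤ 0), mul_zero]
  have h2 : cl (20 * (-y - a)) * cl (20 * (b + x)) = 0 := by
    rcases hn.2 with h | h
    · rw [cl_of_nonpos (by linarith : 20 * (-y - a) ≤ 0), zero_mul]
    · rw [cl_of_nonpos (by linarith : 20 * (b + x) ≤ 0), mul_zero]
  unfold F at h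
  rw [h1, h2, add_zero] at h
  exact lt_irrefl _ h

/-- Where `F` is one. -/
theorem F_eq_one {a b y x : ℝ} (ha : 0 ≤ a)
    (h : (a + 1 / 20 ≤ y ∧ x ≤ b - 1 / 20) ∨ (y ≤ -(a + 1 / 20) ∧ -(b - 1 / 20) ≤ x)) :
    F a b y x = 1 := by
  unfold F
  rcases h with ⟨h1, h2⟩ | ⟨h1, h2⟩
  · rw [cl_of_one_le (by linarith : 1 ≤ 20 * (y - a)), cl_of_one_le (by linarith : 1 ≤ 20 * (b - x)),
      cl_of_nonpos (by linarith : 20 * (-y - a) ≤ 0)]
    norm_num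
  · rw [cl_of_one_le (by linarith : 1 ≤ 20 * (-y - a)),
      cl_of_one_le (by linarith : 1 ≤ 20 * (b + x)),
      cl_of_nonpos (by linarith : 20 * (y - a) ≤ 0)]
    norm_num

theorem norm_le_one_iff (x : C(K, ℝ)) : ‖x‖ ≤ 1 ↔ ∀ s, |x s| ≤ 1 := by
  rw [ContinuousMap.norm_le _ zero_le_one]
  rfl

theorem abs_apply_le (f : C(K, ℝ)) (s : K) : |f s| ≤ ‖f‖ := f.norm_coe_le_norm s

namespace Sys
variable {P : C(K, ℝ) →L[ℝ] C(K, ℝ)} {M : K → C(K, ℝ) →ₗ[ℝ] ℝ} {ε : ℝ}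

theorem mono (S : Sys P M ε) (t : K) {f g : C(K, ℝ)} (h : ∀ s, f s ≤ g s) : M t f ≤ M t g := by
  have h1 := S.pos t (g - f) (by
    intro s
    simpa using h s)
  rw [map_sub] at h1
  linarith

theorem const (t : K) (r : ℝ) : M t (ContinuousMap.const K r) = r * M t 1 := by
  have : ContinuousMap.const K r = r • (1 : C(K, ℝ)) := by
    ext s
    simp
  rw [this, map_smul, smul_eq_mul]

theorem abs_le (S : Sys P M ε) (t : K) {f g : C(K, ℝ)} (h : ∀ s, |g s| ≤ f s) :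
    |P g t| ≤ M t f :=
  (S.abs t g).trans (S.mono t h)

/-- `|M t g| ≤ M t f` if `|g| ≤ f`. -/
theorem abs_M_le (S : Sys P M ε) (t : K) {f g : C(K, ℝ)} (h : ∀ s, |g s| ≤ f s) :
    |M t g| ≤ M t f := by
  rw [_root_.abs_le]
  constructor
  · have := S.mono t (f := -g) (g := f) (fun s => (neg_le_abs _).trans (h s))
    rw [map_neg] at this
    linarith
  · exact S.mono t (fun s => (le_abs_self _).trans (h s))

theorem M_le (S : Sys P M ε) (t : K) {f : C(K, ℝ)} {r : ℝ} (hr : 0 ≤ r) (h : ∀ s, f s ≤ r) :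
    M t f ≤ r * (1 + ε) := by
  have h1 := S.mono t (f := f) (g := ContinuousMap.const K r) h
  rw [const] at h1
  exact h1.trans (mul_le_mul_of_nonneg_left (S.one t) hr)

theorem abs_x_le (S : Sys P M ε) {x : C(K, ℝ)} (hx : P x = x) (t : K) : |x t| ≤ M t |x| := by
  have := S.abs t x
  rwa [hx] at this

theorem abs_le_one (S : Sys P M ε) {x : C(K, ℝ)} (hx : ‖x‖ ≤ 1) (t : K) : M t |x| ≤ M t 1 :=
  S.mono t (fun s => (norm_le_one_iff x).1 hx s)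

theorem x_le_one (S : Sys P M ε) {x : C(K, ℝ)} (hx : UB P x) (t : K) : |x t| ≤ M t 1 :=
  (S.abs_x_le hx.1 t).trans (S.abs_le_one hx.2 t)

theorem P_le (S : Sys P M ε) (g : C(K, ℝ)) (t : K) : |P g t| ≤ (1 + ε) * ‖g‖ := by
  rw [mul_comm]
  exact (S.abs t g).trans (S.M_le t (norm_nonneg _) (abs_apply_le g))

theorem norm_P_le (S : Sys P M ε) (g : C(K, ℝ)) : ‖P g‖ ≤ (1 + ε) * ‖g‖ := by
  rw [ContinuousMap.norm_le _ (mul_nonneg (by linarith [S.eps0]) (norm_nonneg _))]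
  exact S.P_le g

end Sys

end

end SmP
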